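import Mathlib
import Pool.Agent.Lib.BG7.Iff

set_option autoImplicit false

namespace Pool.Agent.Results.MP_baf2fc_al.AbelianByCyclic

/-- The property asked in Q1, for a group `G` in place of the free group: every finitely generated
subalgebra of `k[G]` containing a non-scalar element has a `k`-algebra homomorphism to `k[t,t⁻¹]`
taking a non-constant value. -/
def LaurentProperty (k : Type) [Field k] (G : Type) [Group G] : Prop :=
  ∀ R : Subalgebra k (MonoidAlgebra k G), R.FG →
    (∃ r ∈ R, ∀ c : k, r ≠ algebraMap k (MonoidAlgebra k G) c) →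
    ∃ (f : R →ₐ[k] LaurentPolynomial k) (r : R), ∀ c : k, f r ≠ LaurentPolynomial.C c

theorem result (k : Type) [Field k] [CharZero k] (n : ℕ) (A : Matrix (Fin n) (Fin n) ℚ)
    (K : Type) [AddCommGroup K] (ι : K →+ (Fin n → ℚ)) (hι : Function.Injective ι)
    (hK : Submodule.span ℚ (Set.range ι) = ⊤)
    (φ : Multiplicative ℤ →* MulAut (Multiplicative K))
    (hφ : ∀ v : K, ι (φ (Multiplicative.ofAdd 1) (Multiplicative.ofAdd v)).toAdd
      = A.mulVec (ι v)) :
    LaurentProperty k (SemidirectProduct (Multiplicative K) (Multiplicative ℤ) φ) ↔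
    ∀ p : Polynomial ℚ, Irreducible p → p ∣ A.charpoly → ∃ x : k, Polynomial.aeval x p = 0 := by
  unfold LaurentProperty
  rw [← Pool.Agent.Lib.BG7.bp_iff]
  exact ⟨Pool.Agent.Lib.BG7.nec A K ι hι hK φ hφ, Pool.Agent.Lib.BG7.suf A K ι hι hK φ hφ⟩

end Pool.Agent.Results.MP_baf2fc_al.AbelianByCyclic
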