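import Mathlib
import Pool.Agent.Lib.BG7.Main
import Pool.Agent.Lib.BG7.Free

set_option autoImplicit false

namespace Pool.Agent.Results.MP_baf2fc_al.ResiduallyNilpotent

theorem result (k : Type) [Field k] (G : Type) [Group G]
    (hG : IsFreeGroup G ∨ ∀ g : G, g ≠ 1 → ∃ (N : Subgroup G) (_ : N.Normal), g ∉ N ∧
      Group.IsNilpotent (G ⧸ N) ∧ ∀ x : G ⧸ N, IsOfFinOrder x → x = 1)
    (R : Subalgebra k (MonoidAlgebra k G)) (hR : R.FG)
    (hne : ∃ r ∈ R, ∀ c : k, r ≠ algebraMap k (MonoidAlgebra k G) c) :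
    ∃ (f : R →ₐ[k] LaurentPolynomial k) (r : R), ∀ c : k, f r ≠ LaurentPolynomial.C c := by
  classical
  have h1 : Pool.Agent.Lib.BG7.BP k G := by
    apply Pool.Agent.Lib.BG7.bp_res
    intro g hg
    rcases hG with hG | hG
    · exact Pool.Agent.Lib.BG7.rtfn_free G g hg
    · obtain ⟨N, hN, h1, h2, h3⟩ := hG g hg
      exact ⟨N, hN, h1, h2, fun x n hn hx =>
        h3 x (isOfFinOrder_iff_pow_eq_one.mpr ⟨n, Nat.pos_of_ne_zero hn, hx⟩)⟩
  obtain ⟨r, hr, hc⟩ := hne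
  refine h1 R hR ⟨r, hr, ?_⟩
  by_contra h
  push Not at h
  apply hc (r.coeff 1)
  apply MonoidAlgebra.coeff_injective
  ext x
  change r.coeff x = (Finsupp.single (1 : G) (r.coeff 1)) x
  rw [Finsupp.single_apply]
  split_ifs with h2
  · rw [h2]
  · exact h x (Ne.symm h2)

end Pool.Agent.Results.MP_baf2fc_al.ResiduallyNilpotent
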